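import Pool.Agent.Work.MP_46fa68_19.m8_15_7.Chk
import Pool.Agent.Work.MP_46fa68_31.m8_15_7.R
import Pool.Agent.Work.MP_46fa68_31.Cell
import Pool.Agent.Work.MP_46fa68_95.PsdB
import Pool.Agent.Work.MP_46fa68_74.Scale

/-! # MP_46fa68_co, full marked kernel m8_15_7: the gaps -/

set_option autoImplicit false

namespace Pool.JM.MK.m8_15_7

open Finset Pool.EG Pool.JM

theorem sc : ScIneq (14 + 1) (14 + 1 - (6 + 2)) (((8596858810078809411292549472677922 : ℤ) : ℝ) / 2 ^ 112)
    (((1785818892334781050490411520878404 : ℤ) : ℝ) / 2 ^ 112) (((-43073279280879430551992224265223463 : ℤ) : ℝ) / 2 ^ 112)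
    ((((-34180524957227662929097073102527773 : ℤ) : ℝ) + ((83371941091599433208906872168883215 : ℤ) : ℝ)) / 2 ^ 112 - (6 + 2).factorial * (1 / 10 ^ 16))
    ((((-34180524957227662929097073102527773 : ℤ) : ℝ)) / 2 ^ 112 - (6 + 2).factorial * (1 / 10 ^ 16)) := by
  have hc0 : 65535 = RT.cd (range 16) := by
    have h := cd_range 16
    change 65535 = cd (range 16)
    rw [h]
    norm_num
  obtain ⟨al, h1, h2, h3⟩ := RT.cellChk_sound (N := 14 + 1) (M := 16) (m := 6 + 2) (n := 14)
    (K := 25) (R := 16) (S := (2 : ℝ) ^ 112) (cs := cs) (by norm_num) (by norm_num)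
    (by norm_num) (by positivity) hL (by norm_num) (by norm_num) (by norm_num) (by norm_num) hc0
    (by rfl) (by rfl) (by norm_num [Nat.factorial]) (by norm_num [Nat.factorial])
    (fun k hk => hcs k (by omega)) hct hsc hcellC
  exact full_tables (n := 14) (j := 6) (M := 16) (L := 720720) (W := 31) (R := 16) (N := 101)
    (T := 2 ^ 32) (S := (2 : ℝ) ^ 112) (by norm_num) (by norm_num) hL (by norm_num) (by norm_num)
    (by norm_num) (by positivity) tB tD cs hcs hN hGz hG hsB hsD hr0 (by norm_num) hTB2 hTD hd hE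
    (chP_sound (by positivity) (by norm_num) (hcs 14 (by norm_num)) hpsd) al h1 h2 h3
    (RT.rowChk_sound (N := 14 + 1) (K := 25) (R := 16) (cs := cs 8) (by norm_num) (by norm_num)
      (by positivity) hL (by norm_num) (by norm_num) (by norm_num) (by norm_num) hc0 (by rfl) hsc1
      hrowC)
    (RT.bothChk_sound (N := 14 + 1) (K := 25) (R := 16) (m := 6 + 2) (by norm_num) (by norm_num)
      (by positivity) hL (by norm_num) (by norm_num) (by norm_num) (by norm_num) hc0 (by rfl) hsc
      hbothC)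

theorem gap_1_39o100_21o25 : Gap 15 7 1 (39 / 100) (21 / 25) := by
  have h : ExclS (14 + 1) (14 + 1 - (6 + 2)) 1 (39 / 100) (21 / 25) := by
    refine excl_of_scaled (by norm_num) sc (by norm_num) (by norm_num) ?_ ?_ ?_ ?_ ?_ ?_ ?_ ?_ <;>
      norm_num [Nat.factorial]
  exact h.gap

end Pool.JM.MK.m8_15_7
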